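import Pool.Agent.H.MP_9dd636_co.Tree

set_option autoImplicit false

namespace Pool.Agent.H.MP_9dd636_co

open Classical

namespace RT
variable {α : Type} (T : RT α) (L : ℕ)

noncomputable def jpar : Fin (L + 1) ⊕ (Bool × α) → Fin (L + 1) ⊕ (Bool × α)
  | Sum.inl i => Sum.inl ⟨i.1 - 1, by have := i.2; omega⟩
  | Sum.inr (b, x) => if x = T.r then Sum.inl (Fin.last L) else Sum.inr (b, T.par x)

def jdep : Fin (L + 1) ⊕ (Bool × α) → ℕ
  | Sum.inl i => i.1
  | Sum.inr (_, x) => L + 1 + T.dep x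

noncomputable def join : RT (Fin (L + 1) ⊕ (Bool × α)) where
  r := Sum.inl 0
  par := jpar T L
  dep := jdep T L
  dep_r := rfl
  par_r := rfl
  dep_par := by
    rintro (i | ⟨b, x⟩) h
    · have : i.1 ≠ 0 := fun e => h (by rw [Fin.ext (a := i) (b := 0) e])
      simp only [jpar, jdep]; omega
    · by_cases hx : x = T.r
      · simp only [jpar, hx, if_true, jdep, T.dep_r, Fin.val_last]
      · simp only [jpar, hx, if_false, jdep]
        have := T.dep_par x hx; omega

variable {T L}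

lemma join_par_inr (b : Bool) {x : α} (hx : x ≠ T.r) :
    (join T L).par (Sum.inr (b, x)) = Sum.inr (b, T.par x) := by
  simp only [join, jpar, hx, if_false]

lemma join_anc (b : Bool) {x y : α} (h : T.anc x y) :
    (join T L).anc (Sum.inr (b, x)) (Sum.inr (b, y)) := by
  refine up_ind (T := T) (b := x)
    (P := fun y => (join T L).anc (Sum.inr (b, x)) (Sum.inr (b, y))) (anc_refl _) y ?_ h
  intro z _ hz _ ih
  refine ih.trans ?_
  rw [← join_par_inr b hz]
  exact anc_par _

lemma join_anc' (b : Bool) {x : α} {y : Fin (L + 1) ⊕ (Bool × α)}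
    (h : (join T L).anc (Sum.inr (b, x)) y) : ∃ x', y = Sum.inr (b, x') ∧ T.anc x x' := by
  refine up_ind (T := join T L) (b := Sum.inr (b, x))
    (P := fun y => ∃ x', y = Sum.inr (b, x') ∧ T.anc x x') ⟨x, rfl, anc_refl _⟩ y ?_ h
  rintro (i | ⟨b', z⟩) _ hz _ ⟨x', e, h'⟩
  · exact absurd e (by simp [join, jpar])
  · by_cases hz' : z = T.r
    · exact absurd e (by simp [join, jpar, hz'])
    · rw [join_par_inr b' hz'] at e
      simp only [Sum.inr.injEq, Prod.mk.injEq] at e
      obtain ⟨rfl, rfl⟩ := e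
      exact ⟨z, rfl, h'.trans (anc_par z)⟩

lemma join_bin (b : Bool) (h : ℕ) : ∀ x, T.Bin h x → (join T L).Bin h (Sum.inr (b, x)) := by
  induction h with
  | zero =>
    rintro x ⟨c, h1, rfl⟩
    exact ⟨Sum.inr (b, c), by show _ ≠ Sum.inl 0; simp, join_par_inr b h1⟩
  | succ h ih =>
    rintro x ⟨c1, c2, a1, a2, n1, n2, b1, b2⟩
    refine ⟨Sum.inr (b, c1), Sum.inr (b, c2), join_anc b a1, join_anc b a2, ?_, ?_, ih _ b1, ih _ b2⟩
    · intro h
      obtain ⟨x', e, h'⟩ := join_anc' b h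
      simp only [Sum.inr.injEq, Prod.mk.injEq, true_and] at e
      exact n1 (e ▸ h')
    · intro h
      obtain ⟨x', e, h'⟩ := join_anc' b h
      simp only [Sum.inr.injEq, Prod.mk.injEq, true_and] at e
      exact n2 (e ▸ h')

lemma join_bin_root (h : ℕ) (hb : T.Bin h T.r) : (join T L).Bin (h + 1) (join T L).r := by
  refine ⟨Sum.inr (false, T.r), Sum.inr (true, T.r), anc_root _, anc_root _, ?_, ?_,
    join_bin _ h _ hb, join_bin _ h _ hb⟩
  · intro h
    obtain ⟨x', e, -⟩ := join_anc' _ h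
    simp at e
  · intro h
    obtain ⟨x', e, -⟩ := join_anc' _ h
    simp at e

def RG (T : RT α) : Prop := ∀ σ, {y | T.dep y ≤ σ}.ncard ≤ 2 * σ + 1

lemma fin_seg (L i σ : ℕ) : {j : Fin (L + 1) | i ≤ j.1 ∧ j.1 ≤ i + σ}.ncard ≤ σ + 1 := by
  have h1 : ((Finset.Icc i (i + σ) : Finset ℕ) : Set ℕ).ncard = σ + 1 := by
    rw [Set.ncard_coe_finset, Nat.card_Icc]; omega
  rw [← h1]
  refine Set.ncard_le_ncard_of_injOn (fun j => j.1) ?_ (fun a _ b _ e => Fin.ext e)
  intro j hj
  simpa using hj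

lemma join_RG [Finite α] (hL : L = 2 * Nat.card α) : (join T L).RG := by
  intro σ
  rcases le_or_gt σ L with h | h
  · have hsub : {y | (join T L).dep y ≤ σ} ⊆
        Sum.inl '' {j : Fin (L + 1) | 0 ≤ j.1 ∧ j.1 ≤ 0 + σ} := by
      rintro (j | ⟨b, x⟩) hy
      · exact ⟨j, ⟨Nat.zero_le _, by rw [Nat.zero_add]; exact hy⟩, rfl⟩
      · have : L + 1 + T.dep x ≤ σ := hy
        omega
    have h1 := Set.ncard_le_ncard hsub
    have h2 := Set.ncard_image_le (s := {j : Fin (L + 1) | 0 ≤ j.1 ∧ j.1 ≤ 0 + σ})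
      (f := (Sum.inl : Fin (L + 1) → Fin (L + 1) ⊕ (Bool × α)))
    have h3 := fin_seg L 0 σ
    omega
  · have h1 := Set.ncard_le_card {y | (join T L).dep y ≤ σ}
    rw [Nat.card_sum, Nat.card_prod] at h1
    simp only [Nat.card_eq_fintype_card, Fintype.card_fin, Fintype.card_bool] at h1
    omega

lemma join_DG [Finite α] (h1 : T.DG 5) (h2 : T.RG) : (join T L).DG 5 := by
  rintro (i | ⟨b, x⟩) σ
  · rcases Nat.eq_zero_or_pos σ with rfl | hσ
    · have hsub : {y | (join T L).anc (Sum.inl i) y ∧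
          (join T L).dep y ≤ (join T L).dep (Sum.inl i) + 0} ⊆ {Sum.inl i} := by
        rintro y ⟨a, b⟩
        exact (a.eq_of_dep b).symm
      have := Set.ncard_le_ncard hsub
      simpa using this
    · have hsub : {y | (join T L).anc (Sum.inl i) y ∧
          (join T L).dep y ≤ (join T L).dep (Sum.inl i) + σ} ⊆
          Sum.inl '' {j : Fin (L + 1) | i.1 ≤ j.1 ∧ j.1 ≤ i.1 + σ} ∪
          ((fun x => Sum.inr (false, x)) '' {y | T.dep y ≤ σ - 1} ∪
            (fun x => Sum.inr (true, x)) '' {y | T.dep y ≤ σ - 1}) := by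
        rintro (j | ⟨b, x⟩) ⟨ha, hy⟩
        · exact Or.inl ⟨j, ⟨ha.dep_le, hy⟩, rfl⟩
        · have h3 : L + 1 + T.dep x ≤ i.1 + σ := hy
          have := i.2
          have h4 : T.dep x ≤ σ - 1 := by omega
          cases b
          · exact Or.inr (Or.inl ⟨x, h4, rfl⟩)
          · exact Or.inr (Or.inr ⟨x, h4, rfl⟩)
      refine (Set.ncard_le_ncard hsub).trans ((Set.ncard_union_le _ _).trans ?_)
      have k1 := Set.ncard_image_le (s := {j : Fin (L + 1) | i.1 ≤ j.1 ∧ j.1 ≤ i.1 + σ})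
        (f := (Sum.inl : Fin (L + 1) → Fin (L + 1) ⊕ (Bool × α)))
      have k2 := fin_seg L i.1 σ
      have k3 := Set.ncard_union_le
        ((fun x => (Sum.inr (false, x) : Fin (L + 1) ⊕ (Bool × α))) '' {y | T.dep y ≤ σ - 1})
        ((fun x => Sum.inr (true, x)) '' {y | T.dep y ≤ σ - 1})
      have k4 := Set.ncard_image_le (s := {y | T.dep y ≤ σ - 1})
        (f := fun x => (Sum.inr (false, x) : Fin (L + 1) ⊕ (Bool × α)))
      have k5 := Set.ncard_image_le (s := {y | T.dep y ≤ σ - 1})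
        (f := fun x => (Sum.inr (true, x) : Fin (L + 1) ⊕ (Bool × α)))
      have k6 := h2 (σ - 1)
      omega
  · have hsub : {y | (join T L).anc (Sum.inr (b, x)) y ∧
        (join T L).dep y ≤ (join T L).dep (Sum.inr (b, x)) + σ} ⊆
        (fun x => Sum.inr (b, x)) '' {y | T.anc x y ∧ T.dep y ≤ T.dep x + σ} := by
      rintro y ⟨ha, hy⟩
      obtain ⟨x', rfl, h'⟩ := join_anc' b ha
      have h3 : L + 1 + T.dep x' ≤ L + 1 + T.dep x + σ := hy
      exact ⟨x', ⟨h', by omega⟩, rfl⟩
    exact (Set.ncard_le_ncard hsub).trans ((Set.ncard_image_le).trans (h1 x σ))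

def base : RT Bool where
  r := false
  par := fun _ => false
  dep := fun b => if b then 1 else 0
  dep_r := rfl
  par_r := rfl
  dep_par := by decide

end RT

theorem exists_tree (h : ℕ) : ∃ (α : Type) (_ : Finite α) (T : RT α),
    T.DG 5 ∧ T.RG ∧ T.Bin h T.r := by
  induction h with
  | zero =>
    refine ⟨Bool, inferInstance, RT.base, ?_, ?_, true, by decide, rfl⟩
    · intro z σ
      rcases Nat.eq_zero_or_pos σ with rfl | hσ
      · have hsub : {y | RT.base.anc z y ∧ RT.base.dep y ≤ RT.base.dep z + 0} ⊆ {z} := by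
          rintro y ⟨a, b⟩
          exact (a.eq_of_dep b).symm
        have := Set.ncard_le_ncard hsub
        simpa using this
      · have h1 := Set.ncard_le_card {y | RT.base.anc z y ∧ RT.base.dep y ≤ RT.base.dep z + σ}
        simp only [Nat.card_eq_fintype_card, Fintype.card_bool] at h1
        omega
    · intro σ
      rcases Nat.eq_zero_or_pos σ with rfl | hσ
      · have hsub : {y | RT.base.dep y ≤ 0} ⊆ {RT.base.r} := by
          rintro y hy
          exact RT.eq_r (Nat.le_zero.1 hy)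
        have := Set.ncard_le_ncard hsub
        simpa using this
      · have h1 := Set.ncard_le_card {y | RT.base.dep y ≤ σ}
        simp only [Nat.card_eq_fintype_card, Fintype.card_bool] at h1
        omega
  | succ h ih =>
    obtain ⟨α, _, T, h1, h2, h3⟩ := ih
    exact ⟨_, inferInstance, RT.join T (2 * Nat.card α), RT.join_DG h1 h2, RT.join_RG rfl,
      RT.join_bin_root h h3⟩

end Pool.Agent.H.MP_9dd636_co
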