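import Mathlib

set_option autoImplicit false

namespace Pool.Agent.H.MP_9dd636_co

open Classical

section gad
variable {V : Type} (odd : ℕ → V × V × V → Prop)

def vs (s : V × V × V) : Set V := {s.1, s.2.1, s.2.2}

def Cov (Y : Set V) (p : ℕ) : Prop := ∃ s, odd p s ∧ vs s ⊆ Y

def Heavy (r : ℕ) (Y : Set V) (p : ℕ) : Prop :=
  ∃ S : Finset (V × V × V), r ≤ S.card ∧ (∀ s ∈ S, odd p s ∧ vs s ⊆ Y) ∧
    ∀ s ∈ S, ∀ s' ∈ S, s ≠ s' → Disjoint (vs s) (vs s')

def HH (r : ℕ) (Y : Set V) (a : ℕ → ZMod 2) : Prop :=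
  ∀ p q, p < q → ¬ Cov odd Y p → ¬ Cov odd Y q → a p ≠ a q →
    ∃ s, p < s ∧ s < q ∧ Heavy odd r Y s

variable {odd}

lemma Cov.mono {Y Y' : Set V} {p : ℕ} (h : Cov odd Y p) (hs : Y ⊆ Y') : Cov odd Y' p := by
  obtain ⟨s, h1, h2⟩ := h
  exact ⟨s, h1, h2.trans hs⟩

lemma heavy_succ {r : ℕ} {Y Z : Set V} {p : ℕ} (hZ : Z ⊆ Y) (h : Heavy odd r Z p)
    (hc : Cov odd (Y \ Z) p) : Heavy odd (r + 1) Y p := by
  obtain ⟨S, h1, h2, h3⟩ := h
  obtain ⟨s0, g1, g2⟩ := hc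
  have hn : s0 ∉ S := by
    intro hs
    have a1 : s0.1 ∈ vs s0 := by simp [vs]
    exact (g2 a1).2 ((h2 s0 hs).2 a1)
  have hd : ∀ s ∈ S, Disjoint (vs s0) (vs s) := by
    intro s hs
    rw [Set.disjoint_left]
    intro x hx hx'
    exact (g2 hx).2 ((h2 s hs).2 hx')
  refine ⟨insert s0 S, ?_, ?_, ?_⟩
  · rw [Finset.card_insert_of_notMem hn]; omega
  · intro s hs
    rcases Finset.mem_insert.1 hs with rfl | hs
    · exact ⟨g1, g2.trans Set.diff_subset⟩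
    · exact ⟨(h2 s hs).1, (h2 s hs).2.trans hZ⟩
  · intro s hs s' hs' hne
    rcases Finset.mem_insert.1 hs with e | k1 <;> rcases Finset.mem_insert.1 hs' with e' | k2
    · exact absurd (e.trans e'.symm) hne
    · rw [e]; exact hd _ k2
    · rw [e']; exact (hd _ k1).symm
    · exact h3 s k1 s' k2 hne

lemma HH_zero {Y : Set V} {a : ℕ → ZMod 2}
    (h : ∀ p, ¬ Cov odd Y p → ¬ Cov odd Y (p + 1) → a p = a (p + 1)) : HH odd 0 Y a := by
  intro p q hpq hp hq hne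
  refine ⟨p + 1, by omega, ?_, ∅, by simp, by simp, by simp⟩
  rcases Nat.lt_or_ge (p + 1) q with h1 | h1
  · exact h1
  · have : q = p + 1 := by omega
    subst this
    exact absurd (h p hp hq) hne

lemma third : ∀ i j : Fin 3, ∃ l : Fin 3, l ≠ i ∧ l ≠ j := by decide

lemma z2 : ∀ x y z : ZMod 2, x ≠ z → y ≠ z → x = y := by decide

lemma HH_step {r : ℕ} {Y : Set V} {a : ℕ → ZMod 2} (Z : Fin 3 → Set V) (b : Fin 3 → ℕ → ZMod 2)
    (hZ : ∀ i, Z i ⊆ Y) (hd : ∀ i j, i ≠ j → Disjoint (Z i) (Z j))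
    (hH : ∀ i, HH odd r (Z i) (b i))
    (hb : ∀ l i j s, i ≠ l → j ≠ l → ¬ Cov odd (Y \ Z l) s → b i s = b j s)
    (ha : ∀ i s, ¬ Cov odd Y s → a s = b i s) : HH odd (r + 1) Y a := by
  intro p q hpq hp hq hne
  by_contra hcon
  push Not at hcon
  have hsub : ∀ l i, i ≠ l → Z i ⊆ Y \ Z l := by
    intro l i hil x hx
    exact ⟨hZ i hx, fun hx' => Set.disjoint_left.1 (hd i l hil) hx hx'⟩
  let P : ℕ → Prop := fun s => p ≤ s ∧ s < q ∧ ∃ i j, i ≠ j ∧ ¬ Cov odd (Z i) s ∧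
    ¬ Cov odd (Z j) s ∧ b i s ≠ a q ∧ b j s ≠ a q
  have hP0 : P p := by
    refine ⟨le_rfl, hpq, 0, 1, by decide, fun h => hp (h.mono (hZ _)), fun h => hp (h.mono (hZ _)), ?_, ?_⟩
    · rw [← ha 0 p hp]; exact hne
    · rw [← ha 1 p hp]; exact hne
  let s := Nat.findGreatest P q
  have hs : P s := Nat.findGreatest_spec (le_of_lt hpq) hP0
  have hmax : ∀ s', s < s' → ¬ P s' := by
    intro s' h1 h2
    exact Nat.findGreatest_is_greatest h1 (le_of_lt h2.2.1) h2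
  obtain ⟨hs1, hs2, i, j, hij, ci, cj, bi, bj⟩ := hs
  -- first transitions
  have key : ∀ i, ¬ Cov odd (Z i) s → b i s ≠ a q → ∃ h, s < h ∧ h < q ∧ Heavy odd r (Z i) h ∧
      ∀ h', s < h' → h' ≤ h → ¬ Cov odd (Z i) h' → b i h' ≠ a q := by
    intro i ci bi
    have hex : ∃ v, s < v ∧ ¬ Cov odd (Z i) v ∧ b i v = a q :=
      ⟨q, hs2, fun h => hq (h.mono (hZ _)), (ha i q hq).symm⟩
    have hv := Nat.find_spec hex
    have hvq : Nat.find hex ≤ q :=
      Nat.find_min' hex ⟨hs2, fun h => hq (h.mono (hZ _)), (ha i q hq).symm⟩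
    obtain ⟨h, h1, h2, h3⟩ := hH i s (Nat.find hex) hv.1 ci hv.2.1 (by rw [hv.2.2]; exact bi)
    refine ⟨h, h1, by omega, h3, ?_⟩
    intro h' g1 g2 g3 g4
    exact Nat.find_min hex (by omega : h' < Nat.find hex) ⟨g1, g3, g4⟩
  have fin : ∀ i j, i ≠ j → ∀ h, s < h → h < q → Heavy odd r (Z i) h →
      (¬ Cov odd (Z j) h → b j h ≠ a q) → False := by
    intro i j hij h h1 h2 h3 h4
    have nc : ¬ Cov odd (Y \ Z i) h := fun hc =>
      hcon h (by omega) h2 (heavy_succ (hZ i) h3 hc)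
    obtain ⟨l, hl1, hl2⟩ : ∃ l : Fin 3, l ≠ i ∧ l ≠ j := third i j
    have cj : ¬ Cov odd (Z j) h := fun hc => nc (hc.mono (hsub i j hij.symm))
    have cl : ¬ Cov odd (Z l) h := fun hc => nc (hc.mono (hsub i l hl1))
    have e := hb i j l h hij.symm hl1 nc
    exact hmax h h1 ⟨by omega, h2, j, l, hl2.symm, cj, cl, h4 cj, e ▸ h4 cj⟩
  obtain ⟨hi, a1, a2, a3, a4⟩ := key i ci bi
  obtain ⟨hj, b1, b2, b3, b4⟩ := key j cj bj
  rcases le_total hi hj with h | h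
  · exact fin i j hij hi a1 a2 a3 (b4 hi a1 h)
  · exact fin j i hij.symm hj b1 b2 b3 (a4 hj b1 h)

end gad

section geo

/-- crossing indicator of the chord at cut `t`, for edges of length at least `p` -/
def W (t p i j : ℕ) : ZMod 2 :=
  if (i < t ∧ t ≤ j ∧ i + p ≤ j) ∨ (j < t ∧ t ≤ i ∧ j + p ≤ i) then 1 else 0

lemma W_symm (t p i j : ℕ) : W t p i j = W t p j i := by
  unfold W; simp only [or_comm]

def ONum (t p a b c : ℕ) : Prop :=
  a < b ∧ b < c ∧ ((b < t ∧ t ≤ c ∧ a + p ≤ c ∧ c < b + p) ∨ (a < t ∧ t ≤ b ∧ a + p ≤ c ∧ b < a + p))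

lemma W_lt (t p i j : ℕ) (h : i < j) :
    W t p i j = if i < t ∧ t ≤ j ∧ i + p ≤ j then 1 else 0 := by
  unfold W
  split_ifs <;> first | rfl | omega

lemma W_sorted (t p i j k : ℕ) (h1 : i < j) (h2 : j < k)
    (h : W t p i j + W t p j k + W t p i k ≠ 0) : ONum t p i j k := by
  rw [W_lt _ _ _ _ h1, W_lt _ _ _ _ h2, W_lt _ _ _ _ (h1.trans h2)] at h
  unfold ONum
  split_ifs at h <;> first | (exfalso; revert h; decide) | omega

lemma W_tri (t p i j k : ℕ) (h1 : i ≠ j) (h2 : j ≠ k) (h3 : i ≠ k)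
    (h : W t p i j + W t p j k + W t p k i ≠ 0) :
    ONum t p i j k ∨ ONum t p i k j ∨ ONum t p j i k ∨ ONum t p j k i ∨ ONum t p k i j ∨
      ONum t p k j i := by
  have s1 := W_symm t p i j
  have s2 := W_symm t p j k
  have s3 := W_symm t p k i
  have : (i < j ∧ j < k) ∨ (i < k ∧ k < j) ∨ (j < i ∧ i < k) ∨ (j < k ∧ k < i) ∨
    (k < i ∧ i < j) ∨ (k < j ∧ j < i) := by omega
  rcases this with g | g | g | g | g | g
  · left
    exact W_sorted _ _ _ _ _ g.1 g.2 (fun e => h (by linear_combination e + s3))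
  · right; left
    exact W_sorted _ _ _ _ _ g.1 g.2 (fun e => h (by linear_combination e + s3 + s2))
  · right; right; left
    exact W_sorted _ _ _ _ _ g.1 g.2 (fun e => h (by linear_combination e + s3 + s1))
  · right; right; right; left
    exact W_sorted _ _ _ _ _ g.1 g.2 (fun e => h (by linear_combination e + s1))
  · right; right; right; right; left
    exact W_sorted _ _ _ _ _ g.1 g.2 (fun e => h (by linear_combination e + s2))
  · right; right; right; right; right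
    exact W_sorted _ _ _ _ _ g.1 g.2 (fun e => h (by linear_combination e + s2 + s1))

lemma W_jump (t p i j k : ℕ) (h1 : i ≠ j) (h2 : j ≠ k) (h3 : i ≠ k)
    (h : W t p i j + W t p j k + W t p k i = 0)
    (h' : W t (p + 1) i j + W t (p + 1) j k + W t (p + 1) k i = 0) :
    W t p i j = W t (p + 1) i j := by
  unfold W at *
  split_ifs at h h' ⊢ <;> first | rfl | (exfalso; revert h; decide) | (exfalso; revert h'; decide) | omega

lemma W_same (t p i j : ℕ) (h : i < t ↔ j < t) : W t p i j = 0 := by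
  unfold W; rw [if_neg]; omega

lemma W_zero (t i j : ℕ) : W t 0 i j = (if i < t then 1 else 0) + (if j < t then 1 else 0) := by
  unfold W
  split_ifs <;> first | decide | omega

lemma W_big (t p i j : ℕ) (hi : i < p) (hj : j < p) : W t p i j = 0 := by
  unfold W; rw [if_neg]; omega

variable {V : Type} (G : SimpleGraph V) (f : V → ℕ)

def Od (t p : ℕ) (s : V × V × V) : Prop :=
  G.Adj s.1 s.2.1 ∧ G.Adj s.2.1 s.2.2 ∧ G.Adj s.1 s.2.2 ∧ ONum t p (f s.1) (f s.2.1) (f s.2.2)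

variable {G f}

lemma cov_of_tri (hf : Function.Injective f) {t p : ℕ} {Y : Set V} {u v w : V} (hu : u ∈ Y)
    (hv : v ∈ Y) (hw : w ∈ Y) (a1 : G.Adj u v) (a2 : G.Adj v w) (a3 : G.Adj w u)
    (hn : ¬ Cov (Od G f t) Y p) :
    W t p (f u) (f v) + W t p (f v) (f w) + W t p (f w) (f u) = 0 := by
  by_contra h
  apply hn
  have sub : ∀ x y z : V, x ∈ Y → y ∈ Y → z ∈ Y → vs (x, y, z) ⊆ Y := by
    intro x y z hx hy hz a ha
    simp only [vs, Set.mem_insert_iff, Set.mem_singleton_iff] at ha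
    rcases ha with rfl | rfl | rfl <;> assumption
  rcases W_tri t p _ _ _ (fun e => a1.ne (hf e)) (fun e => a2.ne (hf e))
    (fun e => a3.ne (hf e).symm) h with g | g | g | g | g | g
  · exact ⟨(u, v, w), ⟨a1, a2, a3.symm, g⟩, sub _ _ _ hu hv hw⟩
  · exact ⟨(u, w, v), ⟨a3.symm, a2.symm, a1, g⟩, sub _ _ _ hu hw hv⟩
  · exact ⟨(v, u, w), ⟨a1.symm, a3.symm, a2, g⟩, sub _ _ _ hv hu hw⟩
  · exact ⟨(v, w, u), ⟨a2, a3, a1.symm, g⟩, sub _ _ _ hv hw hu⟩
  · exact ⟨(w, u, v), ⟨a3, a1, a2.symm, g⟩, sub _ _ _ hw hu hv⟩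
  · exact ⟨(w, v, u), ⟨a2.symm, a1.symm, a3, g⟩, sub _ _ _ hw hv hu⟩

lemma not_cov_zero (t : ℕ) (Y : Set V) : ¬ Cov (Od G f t) Y 0 := by
  rintro ⟨s, ⟨-, -, -, h⟩, -⟩
  unfold ONum at h; omega

lemma not_cov_big (t : ℕ) (Y : Set V) (N : ℕ) (hN : ∀ v, f v < N) : ¬ Cov (Od G f t) Y N := by
  rintro ⟨s, ⟨-, -, -, h⟩, -⟩
  have := hN s.2.2
  unfold ONum at h; omega

lemma heavy_le (hf : Function.Injective f) {k : ℕ} (col : V → V → Fin k)
    (hcol : ∀ a b x y : V, G.Adj a b → G.Adj x y →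
      f a < f x → f x < f b → f b < f y → col a b ≠ col x y)
    {t p r : ℕ} {Y : Set V} (h : Heavy (Od G f t) r Y p) : r ≤ 2 * k ^ 3 := by
  obtain ⟨S, h1, h2, h3⟩ := h
  let φ : V × V × V → Bool × Fin k × Fin k × Fin k := fun s =>
    (decide (f s.2.1 < t), col s.1 s.2.1, col s.2.1 s.2.2, col s.1 s.2.2)
  have hinj : Set.InjOn φ S := by
    intro s hs s' hs' e
    by_contra hne
    have hd := Set.disjoint_left.1 (h3 s hs s' hs' hne)
    obtain ⟨a, b, c⟩ := s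
    obtain ⟨a', b', c'⟩ := s'
    obtain ⟨⟨x1, x2, x3, x4⟩, -⟩ := h2 _ hs
    obtain ⟨⟨y1, y2, y3, y4⟩, -⟩ := h2 _ hs'
    simp only [φ, Prod.mk.injEq, decide_eq_decide] at e
    obtain ⟨e0, e1, e2, e3⟩ := e
    have ne : ∀ u ∈ vs (a, b, c), ∀ u' ∈ vs (a', b', c'), f u ≠ f u' := by
      intro u hu u' hu' e
      exact hd hu (hf e ▸ hu')
    have m1 : a ∈ vs (a, b, c) := by simp [vs]
    have m2 : b ∈ vs (a, b, c) := by simp [vs]
    have m3 : c ∈ vs (a, b, c) := by simp [vs]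
    have n1 : a' ∈ vs (a', b', c') := by simp [vs]
    have n2 : b' ∈ vs (a', b', c') := by simp [vs]
    have n3 : c' ∈ vs (a', b', c') := by simp [vs]
    have := ne a m1 a' n1
    have := ne a m1 b' n2
    have := ne b m2 a' n1
    have := ne b m2 b' n2
    have := ne b m2 c' n3
    have := ne c m3 b' n2
    have := ne c m3 c' n3
    have c1 : ¬ (f a < f a' ∧ f a' < f b ∧ f b < f b') :=
      fun h => hcol a b a' b' x1 y1 h.1 h.2.1 h.2.2 e1
    have c2 : ¬ (f a' < f a ∧ f a < f b' ∧ f b' < f b) :=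
      fun h => hcol a' b' a b y1 x1 h.1 h.2.1 h.2.2 e1.symm
    have c3 : ¬ (f b < f b' ∧ f b' < f c ∧ f c < f c') :=
      fun h => hcol b c b' c' x2 y2 h.1 h.2.1 h.2.2 e2
    have c4 : ¬ (f b' < f b ∧ f b < f c' ∧ f c' < f c) :=
      fun h => hcol b' c' b c y2 x2 h.1 h.2.1 h.2.2 e2.symm
    have c5 : ¬ (f a < f a' ∧ f a' < f c ∧ f c < f c') :=
      fun h => hcol a c a' c' x3 y3 h.1 h.2.1 h.2.2 e3
    have c6 : ¬ (f a' < f a ∧ f a < f c' ∧ f c' < f c) :=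
      fun h => hcol a' c' a c y3 x3 h.1 h.2.1 h.2.2 e3.symm
    simp only [ONum] at x4 y4
    omega
  have := Finset.card_le_card_of_injOn φ (t := Finset.univ) (fun _ _ => by simp) hinj
  simp only [Finset.card_univ, Fintype.card_prod, Fintype.card_bool, Fintype.card_fin] at this
  calc r ≤ S.card := h1
    _ ≤ 2 * (k * (k * k)) := this
    _ = 2 * k ^ 3 := by ring

end geo

end Pool.Agent.H.MP_9dd636_co
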