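import Pool.Agent.H.MP_9dd636_co.TL
import Pool.Agent.H.MP_9dd636_co.Exist

set_option autoImplicit false

namespace Pool.Agent.H.MP_9dd636_co

open Classical RT

variable {α β : Type} {A : RT α} {B : RT β}

def All (A : RT α) (B : RT β) (σ : α × β → Prop) (c : β) : Prop :=
  ∀ l, B.anc c l → Cross A B σ c l

def Up (A : RT α) (B : RT β) (σ : α × β → Prop) (c b : β) (x : α) : Prop :=
  σ (x, b) ∧ ∃ l x0, B.anc b l ∧ Relation.ReflTransGen (Step A B σ (Seg B c l)) (x, b) (x0, c)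

lemma hit {σ : α × β → Prop} {c b l : β} {x0 : α} (hcb : B.anc c b) {u : α × β}
    (h : Relation.ReflTransGen (Step A B σ (Seg B c l)) u (x0, c)) :
    σ u → u.2 ∈ Seg B b l → ∃ y, σ (y, b) ∧
      Relation.ReflTransGen (Step A B σ (Seg B c l)) (y, b) (x0, c) ∧
      Relation.ReflTransGen (Step A B σ (Seg B b l)) u (y, b) := by
  induction h using Relation.ReflTransGen.head_induction_on with
  | refl =>
    intro h1 h2
    have : c = b := hcb.antisymm h2.1
    subst this
    exact ⟨x0, h1, Relation.ReflTransGen.refl, Relation.ReflTransGen.refl⟩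
  | @head u u' hs hr ih =>
    intro h1 h2
    by_cases e : b = u.2
    · subst e
      exact ⟨u.1, h1, hr.head hs, Relation.ReflTransGen.refl⟩
    · have key : u'.2 ∈ Seg B b l := by
        refine ⟨?_, hs.2.2.2⟩
        rcases hs.1.2.2 with g | g | g
        · rw [← g]; exact h2.1
        · rw [← g]; exact (h2.1.cases.resolve_left e).2
        · exact h2.1.trans (g ▸ anc_par _)
      obtain ⟨y, k1, k2, k3⟩ := ih hs.2.1 key
      exact ⟨y, k1, k2, k3.head ⟨hs.1, hs.2.1, key⟩⟩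

lemma up_hit {σ : α × β → Prop} {c b b' : β} {x : α} (hcb : B.anc c b) (hb : B.anc b b')
    (h : Up A B σ c b' x) : ∃ y, Up A B σ c b y ∧ ∃ l, B.anc b' l ∧
      Relation.ReflTransGen (Step A B σ (Seg B b l)) (x, b') (y, b) := by
  obtain ⟨h1, l, x0, h2, h3⟩ := h
  obtain ⟨y, k1, k2, k3⟩ := hit hcb h3 h1 ⟨hb, h2⟩
  exact ⟨y, ⟨k1, l, x0, hb.trans h2, k2⟩, l, h2, k3⟩

section bg
variable (A B) (f : α × β → ℕ) (t : ℕ)

noncomputable def psi (p : ℕ) (y : β) (x : α) : ZMod 2 :=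
  A.S (fun a b => W t p (f (a, y)) (f (b, y))) x

noncomputable def Phi (p : ℕ) (u : α × β) : ZMod 2 :=
  psi A f t p u.2 u.1 + B.S (fun a b => W t p (f (A.r, a)) (f (A.r, b))) u.2

variable {A B f t}

lemma ph1 : ∀ a w k : ZMod 2, (a + k) + ((a + w) + k) = w := by decide
lemma ph2 : ∀ a b w k e : ZMod 2, a + b + w = e → (a + k) + (b + (k + e)) = w := by decide
lemma ph3 : ∀ a b c u v w : ZMod 2, a + b = u → b + c = v → u + v + w = 0 → a + c = w := by decide
lemma ph4 : ∀ a b : ZMod 2, a + b = 0 → a = b := by decide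
lemma ph5 : ∀ a b c d k l : ZMod 2, a + k = c + l → b + k = d + l → a + b = c + d := by decide

lemma Phi_hor (p : ℕ) {x x' : α} (y : β) (h : A.Close x x') :
    Phi A B f t p (x, y) + Phi A B f t p (x', y) = W t p (f (x, y)) (f (x', y)) := by
  have key : ∀ x : α, Phi A B f t p (A.par x, y) + Phi A B f t p (x, y) =
      W t p (f (A.par x, y)) (f (x, y)) := by
    intro x
    by_cases hx : x = A.r
    · rw [hx, A.par_r, CharTwo.add_self_eq_zero, W_same _ _ _ _ Iff.rfl]
    · unfold Phi psi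
      simp only []
      rw [S_par _ hx]
      exact ph1 _ _ _
  rcases h with rfl | rfl | rfl
  · rw [CharTwo.add_self_eq_zero, W_same _ _ _ _ Iff.rfl]
  · rw [add_comm, W_symm]; exact key x
  · exact key x'

lemma Phi_ver (hf : Function.Injective f) {p : ℕ} {Y : Set (α × β)} (x : α) {y y' : β}
    (h : B.Close y y') (hy : ∀ x, (x, y) ∈ Y) (hy' : ∀ x, (x, y') ∈ Y)
    (hn : ¬ Cov (Od (prodG A B) f t) Y p) :
    Phi A B f t p (x, y) + Phi A B f t p (x, y') = W t p (f (x, y)) (f (x, y')) := by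
  have key : ∀ y : β, (∀ x, (x, B.par y) ∈ Y) → (∀ x, (x, y) ∈ Y) →
      Phi A B f t p (x, B.par y) + Phi A B f t p (x, y) = W t p (f (x, B.par y)) (f (x, y)) := by
    intro y h1 h2
    by_cases hy : y = B.r
    · rw [hy, B.par_r, CharTwo.add_self_eq_zero, W_same _ _ _ _ Iff.rfl]
    · have lad := ladder (T := A) (fun u v => W t p (f u) (f v)) (fun u v => W_symm _ _ _ _)
        (fun x => (x, B.par y)) (fun x => (x, y)) x ?_ ?_
      · unfold Phi psi
        simp only []
        rw [S_par (T := B) _ hy]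
        exact ph2 _ _ _ _ _ lad
      · intro z hz _
        exact cov_of_tri hf (h2 _) (h2 _) (h1 _) (adj_h hz (close_refl _))
          (adj_v hy (close_par z).symm).symm (adj_v hy (close_refl _)) hn
      · intro z hz _
        exact cov_of_tri hf (h1 _) (h1 _) (h2 _) (adj_h hz (close_refl _))
          (adj_v hy (close_refl _)) (adj_v hy (close_par z).symm).symm hn
  rcases h with rfl | rfl | rfl
  · rw [CharTwo.add_self_eq_zero, W_same _ _ _ _ Iff.rfl]
  · rw [add_comm, W_symm]; exact key y hy' hy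
  · exact key y' hy hy'

lemma Phi_edge (hf : Function.Injective f) {p : ℕ} {Y : Set (α × β)} {u v : α × β}
    (h : (prodG A B).Adj u v) (hy : ∀ x, (x, u.2) ∈ Y) (hy' : ∀ x, (x, v.2) ∈ Y)
    (hn : ¬ Cov (Od (prodG A B) f t) Y p) :
    Phi A B f t p u + Phi A B f t p v = W t p (f u) (f v) := by
  obtain ⟨x, y⟩ := u
  obtain ⟨x', y'⟩ := v
  by_cases e1 : x = x'
  · subst e1
    exact Phi_ver hf x h.2.2 hy hy' hn
  by_cases e2 : y = y'
  · subst e2
    exact Phi_hor p y h.2.1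
  have k1 := Phi_hor (B := B) (f := f) (t := t) p y h.2.1
  have k2 := Phi_ver hf x' h.2.2 hy hy' hn
  have k3 := cov_of_tri (G := prodG A B) hf (u := (x, y)) (v := (x', y)) (w := (x', y'))
    (hy x) (hy x') (hy' x')
    ⟨fun e => e1 (congrArg Prod.fst e), h.2.1, close_refl _⟩
    ⟨fun e => e2 (congrArg Prod.snd e), close_refl _, h.2.2⟩ h.symm hn
  rw [W_symm t p (f (x', y'))] at k3
  exact ph3 _ _ _ _ _ _ k1 k2 k3

lemma Phi_walk (hf : Function.Injective f) {p : ℕ} {Y : Set (α × β)} {σ : α × β → Prop}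
    (hσ : ∀ u v, σ u → σ v → (f u < t ↔ f v < t)) {S : Set β} (hS : ∀ y ∈ S, ∀ x, (x, y) ∈ Y)
    (hn : ¬ Cov (Od (prodG A B) f t) Y p) {u v : α × β} (h1 : σ u) (h2 : u.2 ∈ S)
    (h : Relation.ReflTransGen (Step A B σ S) u v) :
    Phi A B f t p u = Phi A B f t p v ∧ σ v ∧ v.2 ∈ S := by
  induction h with
  | refl => exact ⟨rfl, h1, h2⟩
  | tail _ hs ih =>
    refine ⟨ih.1.trans (ph4 _ _ ?_), hs.2⟩
    rw [Phi_edge hf hs.1 (hS _ ih.2.2) (hS _ hs.2.2) hn]
    exact W_same _ _ _ _ (hσ _ _ ih.2.1 hs.2.1)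

theorem gadB [Finite α] (hf : Function.Injective f) {c : β} {d : ℕ}
    (hd : Nat.card (α × α) * 2 < 2 ^ d)
    (h1 : All A B (fun u => f u < t) c) (h2 : All A B (fun u => ¬ f u < t) c) (m : ℕ) :
    ∀ b, B.anc c b → B.Bin (d * m) b → ∃ x x', Up A B (fun u => f u < t) c b x ∧
      Up A B (fun u => ¬ f u < t) c b x' ∧
      HH (Od (prodG A B) f t) m {u | B.anc b u.2}
        (fun p => psi A f t p b x + psi A f t p b x') := by
  induction m with
  | zero =>
    rintro b hb ⟨e, he, rfl⟩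
    obtain ⟨x0, x, k1, k2⟩ := h1 _ hb
    obtain ⟨x0', x', k1', k2'⟩ := h2 _ hb
    refine ⟨x, x', ⟨k1, _, x0, anc_refl _, k2⟩, ⟨k1', _, x0', anc_refl _, k2'⟩, ?_⟩
    apply HH_zero
    intro p hp hp'
    have key : ∀ x, psi A f t p (B.par e) x = psi A f t (p + 1) (B.par e) x := by
      intro x
      apply S_congr
      intro z hz _
      have a1 : (prodG A B).Adj (A.par z, B.par e) (z, B.par e) := adj_h hz (close_refl _)
      have a2 : (prodG A B).Adj (z, B.par e) (z, e) := adj_v he (close_refl _)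
      have a3 : (prodG A B).Adj (z, e) (A.par z, B.par e) := (adj_v he (close_par z).symm).symm
      exact W_jump t p _ _ (f (z, e)) (fun e => a1.ne (hf e)) (fun e => a2.ne (hf e))
        (fun e => a3.ne (hf e).symm)
        (cov_of_tri (Y := {u | B.anc (B.par e) u.2}) hf (anc_refl _) (anc_refl _) (anc_par _)
          a1 a2 a3 hp)
        (cov_of_tri (Y := {u | B.anc (B.par e) u.2}) hf (anc_refl _) (anc_refl _) (anc_par _)
          a1 a2 a3 hp')
    simp only [key]
  | succ m ih =>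
    intro b hcb hb
    obtain ⟨S, k1, k2, k3⟩ := fam (d * m) d b hb
    have ex : ∀ s : β, ∃ q : (α × α) × (α × α), s ∈ S →
        HH (Od (prodG A B) f t) m {u | B.anc s u.2}
          (fun p => psi A f t p s q.1.1 + psi A f t p s q.1.2) ∧
        f (q.1.1, s) < t ∧ ¬ f (q.1.2, s) < t ∧
        Up A B (fun u => f u < t) c b q.2.1 ∧ Up A B (fun u => ¬ f u < t) c b q.2.2 ∧
        (∃ l, B.anc s l ∧ Relation.ReflTransGen (Step A B (fun u => f u < t) (Seg B b l))
          (q.1.1, s) (q.2.1, b)) ∧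
        (∃ l, B.anc s l ∧ Relation.ReflTransGen (Step A B (fun u => ¬ f u < t) (Seg B b l))
          (q.1.2, s) (q.2.2, b)) := by
      intro s
      by_cases hs : s ∈ S
      · obtain ⟨x, x', u1, u2, u3⟩ := ih s (hcb.trans (k2 s hs).1) (k2 s hs).2
        obtain ⟨y, v1, v2⟩ := up_hit hcb (k2 s hs).1 u1
        obtain ⟨y', v1', v2'⟩ := up_hit hcb (k2 s hs).1 u2
        exact ⟨((x, x'), (y, y')), fun _ => ⟨u3, u1.1, u2.1, v1, v1', v2, v2'⟩⟩
      · exact ⟨((A.r, A.r), (A.r, A.r)), fun h => absurd h hs⟩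
    choose q hq using ex
    haveI := Fintype.ofFinite (α × α)
    obtain ⟨θ, -, hθ⟩ := Finset.exists_lt_card_fiber_of_mul_lt_card_of_maps_to
      (s := S) (t := (Finset.univ : Finset (α × α))) (f := fun s => (q s).2) (n := 2)
      (fun _ _ => Finset.mem_univ _)
      (by rw [Finset.card_univ, ← Nat.card_eq_fintype_card]; omega)
    obtain ⟨e, he, heS⟩ := three _ hθ
    have eS : ∀ i, e i ∈ S := fun i => (Finset.mem_filter.1 (heS i)).1
    have eθ : ∀ i, (q (e i)).2 = θ := fun i => (Finset.mem_filter.1 (heS i)).2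
    have inc : ∀ i j, i ≠ j → ¬ B.anc (e i) (e j) :=
      fun i j hij => k3 _ (eS i) _ (eS j) (fun h => hij (he h))
    have e1 : ∀ i s (Y : Set (α × β)), (∀ l, B.anc (e i) l → ∀ y ∈ Seg B b l, ∀ x, (x, y) ∈ Y) →
        ¬ Cov (Od (prodG A B) f t) Y s →
        psi A f t s (e i) (q (e i)).1.1 + psi A f t s (e i) (q (e i)).1.2 =
          psi A f t s b θ.1 + psi A f t s b θ.2 := by
      intro i s Y hY hn
      obtain ⟨-, w1, w2, -, -, ⟨l, w3, w4⟩, ⟨l', w3', w4'⟩⟩ := hq _ (eS i)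
      rw [eθ i] at w4 w4'
      have p1 := (Phi_walk hf (fun u v a b => by simp [a, b]) (hY l w3) hn w1
        ⟨(k2 _ (eS i)).1, w3⟩ w4).1
      have p2 := (Phi_walk hf (fun u v a b => by simp only [a, b]) (hY l' w3') hn w2
        ⟨(k2 _ (eS i)).1, w3'⟩ w4').1
      exact ph5 _ _ _ _ _ _ p1 p2
    refine ⟨θ.1, θ.2, ?_, ?_, ?_⟩
    · rw [← eθ 0]; exact (hq _ (eS 0)).2.2.2.1
    · rw [← eθ 0]; exact (hq _ (eS 0)).2.2.2.2.1
    have e2 : ∀ l i s, i ≠ l → ¬ Cov (Od (prodG A B) f t)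
        ({u | B.anc b u.2} \ {u | B.anc (e l) u.2}) s →
        psi A f t s (e i) (q (e i)).1.1 + psi A f t s (e i) (q (e i)).1.2 =
          psi A f t s b θ.1 + psi A f t s b θ.2 := by
      intro l i s hil hn
      refine e1 i s _ ?_ hn
      intro l' hl' y hy x
      exact ⟨hy.1, fun h => (anc_total (anc.trans h hy.2) hl').elim (inc l i hil.symm) (inc i l hil)⟩
    refine HH_step (fun i => {u | B.anc (e i) u.2})
      (fun i p => psi A f t p (e i) (q (e i)).1.1 + psi A f t p (e i) (q (e i)).1.2) ?_ ?_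
      (fun i => (hq _ (eS i)).1) ?_ ?_
    · intro i u hu
      exact (k2 _ (eS i)).1.trans hu
    · intro i j hij
      rw [Set.disjoint_left]
      intro u g1 g2
      exact (anc_total g1 g2).elim (inc i j hij) (inc j i hij.symm)
    · intro l i j s hi hj hn
      exact (e2 l i s hi hn).trans (e2 l j s hj hn).symm
    · intro i s hn
      exact (e1 i s {u | B.anc b u.2} (fun l _ y hy x => hy.1) hn).symm

theorem heavyB [Finite α] (hf : Function.Injective f) {c : β} {d : ℕ}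
    (hd : Nat.card (α × α) * 2 < 2 ^ d)
    (h1 : All A B (fun u => f u < t) c) (h2 : All A B (fun u => ¬ f u < t) c)
    (N : ℕ) (hN : ∀ v, f v < N) (m : ℕ) (hb : B.Bin (d * m) c) :
    ∃ Y p, Heavy (Od (prodG A B) f t) m Y p := by
  obtain ⟨x, x', u1, u2, h⟩ := gadB hf hd h1 h2 m c (anc_refl c) hb
  have k0 : ∀ x, psi A f t 0 c x =
      (if f (A.r, c) < t then 1 else 0) + (if f (x, c) < t then 1 else 0) := by
    intro x
    exact S_exact (T := A) _ (fun x => if f (x, c) < t then 1 else 0) x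
      (fun z _ _ => W_zero _ _ _)
  have kN : ∀ x, psi A f t N c x = 0 + 0 := by
    intro x
    exact S_exact (T := A) _ (fun _ => 0) x
      (fun z _ _ => by rw [W_big _ _ _ _ (hN _) (hN _)]; simp)
  obtain ⟨s, -, -, h⟩ := h 0 N (by have := hN (A.r, B.r); omega) (not_cov_zero _ _)
    (not_cov_big _ _ N hN) (by
      simp only [k0, kN, u1.1, u2.1, if_true, if_false]
      split_ifs <;> decide)
  exact ⟨_, s, h⟩

end bg

lemma Cross.mono {σ σ' : α × β → Prop} {c l : β} (hcl : B.anc c l) (h : Cross A B σ c l)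
    (hs : ∀ u : α × β, B.anc c u.2 → σ u → σ' u) : Cross A B σ' c l := by
  obtain ⟨x0, x, h1, h2⟩ := h
  refine ⟨x0, x, hs _ hcl h1, ?_⟩
  generalize (x0, c) = w at h2
  induction h2 with
  | refl => exact Relation.ReflTransGen.refl
  | tail _ h ih => exact ih.tail ⟨h.1, hs _ h.2.2.1 h.2.1, h.2.2⟩

lemma all_top {σ : α × β → Prop} (hσ : ∀ u, σ u) (c : β) : All A B σ c := by
  intro l hl
  refine ⟨A.r, A.r, hσ _, ?_⟩
  refine up_ind (T := B) (b := c) (P := fun y => Relation.ReflTransGen (Step A B σ (Seg B c l))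
    (A.r, y) (A.r, c)) Relation.ReflTransGen.refl l ?_ hl
  intro y k1 k2 k3 ih
  exact ih.head ⟨(adj_v k2 (close_refl _)).symm, hσ _, k1, (anc_par y).trans k3⟩

theorem heavy_main [Finite α] [Finite β] {f : α × β → ℕ} (hf : Function.Injective f) {d m : ℕ}
    (hd : Nat.card (α × α) * 2 < 2 ^ d) (hA : A.Bin (2 * m) A.r) (hB : B.Bin (d * m + 1) B.r) :
    ∃ t Y p, Heavy (Od (prodG A B) f t) m Y p := by
  obtain ⟨c1, c2, -, -, n1, n2, b1, b2⟩ := hB
  obtain ⟨N, hN⟩ : ∃ N, ∀ v, f v < N := by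
    obtain ⟨N, hN⟩ := (Set.finite_range f).bddAbove
    exact ⟨N + 1, fun v => Nat.lt_succ_of_le (hN ⟨v, rfl⟩)⟩
  have cross : ∀ z, B.anc c1 z → B.anc c2 z → False := fun z z1 z2 =>
    (anc_total z1 z2).elim n1 n2
  have one : ∀ t c1 c2, (∀ z, B.anc c1 z → B.anc c2 z → False) → B.Bin (d * m) c1 →
      All A B (fun u => f u < t) c1 → ¬ All A B (fun u => f u < t) c2 →
      ∃ t Y p, Heavy (Od (prodG A B) f t) m Y p := by
    intro t c1 c2 cr b1 h1 h2
    unfold All at h2
    push Not at h2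
    obtain ⟨l2, a2, k2⟩ := h2
    by_cases h3 : All A B (fun u => ¬ f u < t) c1
    · exact ⟨t, heavyB hf hd h1 h3 N hN m b1⟩
    · unfold All at h3
      push Not at h3
      obtain ⟨l1, a1, k1⟩ := h3
      have H : Hyp A B f t c1 c2 l1 l2 :=
        ⟨hf, a1, a2, fun h => cr _ h a2, fun h => cr _ a1 h, by simpa using k1, k2⟩
      exact ⟨t, H.heavy N hN m hA⟩
  have hex : ∃ t, All A B (fun u => f u < t) c1 ∨ All A B (fun u => f u < t) c2 :=
    ⟨N, Or.inl (all_top hN c1)⟩
  have h0 : ∀ c, ¬ All A B (fun u => f u < 0) c := by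
    intro c h
    obtain ⟨_, _, h, -⟩ := h c (anc_refl c)
    exact absurd h (Nat.not_lt_zero _)
  have hs := Nat.find_spec hex
  obtain ⟨t, ht⟩ : ∃ t, Nat.find hex = t + 1 := by
    rcases e : Nat.find hex with _ | t
    · rw [e] at hs
      exact absurd hs (by rintro (h | h) <;> exact h0 _ h)
    · exact ⟨t, rfl⟩
  have hm := Nat.find_min hex (m := t) (by omega)
  rw [ht] at hs
  by_cases g1 : All A B (fun u => f u < t + 1) c1
  · by_cases g2 : All A B (fun u => f u < t + 1) c2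
    · exfalso
      apply hm
      by_cases g3 : ∃ u : α × β, B.anc c1 u.2 ∧ f u = t
      · obtain ⟨v, v1, v2⟩ := g3
        right
        intro l hl
        refine (g2 l hl).mono hl ?_
        intro u hu hu'
        have : f u ≠ t := fun e => cross _ v1 (by rw [hf (v2.trans e.symm)]; exact hu)
        show f u < t
        have : f u < t + 1 := hu'
        omega
      · left
        intro l hl
        refine (g1 l hl).mono hl ?_
        intro u hu hu'
        have : f u ≠ t := fun e => g3 ⟨u, hu, e⟩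
        show f u < t
        have : f u < t + 1 := hu'
        omega
    · exact one _ c1 c2 cross b1 g1 g2
  · exact one _ c2 c1 (fun z a b => cross z b a) b2 (hs.resolve_left g1) g1

lemma walk_near {u v : α × β} (w : (prodG A B).Walk u v) :
    A.Near w.length u.1 v.1 ∧ B.Near w.length u.2 v.2 := by
  induction w with
  | nil => exact ⟨rfl, rfl⟩
  | cons h _ ih => exact ⟨⟨_, h.2.1, ih.1⟩, ⟨_, h.2.2, ih.2⟩⟩

lemma near_le {T : RT α} {n m : ℕ} (h : n ≤ m) {x y : α} (hn : T.Near n x y) : T.Near m x y := by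
  induction h with
  | refl => exact hn
  | step _ ih => exact near_mono ih

theorem growth [Finite α] [Finite β] (hA : A.DG 5) (hB : B.DG 5) (v : α × β) (r : ℕ) (hr : 1 ≤ r) :
    {w | (prodG A B).edist v w ≤ (r : ℕ∞)}.ncard ≤ 121 * r ^ 2 := by
  have hsub : {w | (prodG A B).edist v w ≤ (r : ℕ∞)} ⊆
      {y | A.Near r v.1 y} ×ˢ {y | B.Near r v.2 y} := by
    intro w hw
    have hw' : (prodG A B).edist v w ≤ (r : ℕ∞) := hw
    obtain ⟨p, hp⟩ := SimpleGraph.exists_walk_of_edist_ne_top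
      (ne_top_of_le_ne_top (ENat.coe_ne_top r) hw')
    rw [← hp] at hw'
    have hl : p.length ≤ r := by exact_mod_cast hw'
    exact ⟨near_le hl (walk_near p).1, near_le hl (walk_near p).2⟩
  refine (Set.ncard_le_ncard hsub).trans ?_
  rw [Set.ncard_prod]
  calc _ ≤ (11 * r) * (11 * r) := Nat.mul_le_mul (ball_le hA _ _ hr) (ball_le hB _ _ hr)
    _ = 121 * r ^ 2 := by ring

theorem main :
    ¬ (∀ c : ℕ, ∃ s : ℕ, ∀ (V : Type) [Finite V] (G : SimpleGraph V),
      (∀ v : V, ∀ r : ℕ, 1 ≤ r →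
        {w : V | G.edist v w ≤ (r : ℕ∞)}.ncard ≤ c * r ^ 2) →
      ∃ f : V → ℕ, Function.Injective f ∧
        ∃ col : V → V → Fin s,
          ∀ a b x y : V, G.Adj a b → G.Adj x y →
            f a < f x → f x < f b → f b < f y → col a b ≠ col x y) := by
  intro h
  obtain ⟨k, hk⟩ := h 121
  obtain ⟨α, _, A, a1, -, a3⟩ := exists_tree (2 * (2 * k ^ 3 + 1))
  obtain ⟨β, _, B, b1, -, b3⟩ := exists_tree (Nat.card (α × α) * 2 * (2 * k ^ 3 + 1) + 1)
  obtain ⟨f, hf, col, hcol⟩ := hk (α × β) (prodG A B) (growth a1 b1)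
  obtain ⟨t, Y, p, hh⟩ := heavy_main hf (Nat.lt_two_pow_self) a3 b3
  have := heavy_le hf col hcol hh
  omega

end Pool.Agent.H.MP_9dd636_co
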