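import Mathlib

set_option autoImplicit false

namespace Pool.Agent.H.MP_9dd636_co

open Classical

structure RT (α : Type) where
  r : α
  par : α → α
  dep : α → ℕ
  dep_r : dep r = 0
  par_r : par r = r
  dep_par : ∀ x, x ≠ r → dep (par x) + 1 = dep x

namespace RT
variable {α : Type} (T : RT α)

def anc (x y : α) : Prop := ∃ n, T.par^[n] y = x

def Close (x y : α) : Prop := x = y ∨ T.par x = y ∨ T.par y = x

variable {T}

lemma Close.symm {x y : α} (h : T.Close x y) : T.Close y x := by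
  rcases h with h | h | h
  · exact Or.inl h.symm
  · exact Or.inr (Or.inr h)
  · exact Or.inr (Or.inl h)

lemma close_refl (x : α) : T.Close x x := Or.inl rfl
lemma close_par (x : α) : T.Close x (T.par x) := Or.inr (Or.inl rfl)

lemma eq_r {x : α} (h : T.dep x = 0) : x = T.r := by
  by_contra hne
  have := T.dep_par x hne
  omega

lemma dep_par' (x : α) : T.dep (T.par x) = T.dep x - 1 := by
  by_cases h : x = T.r
  · subst h; rw [T.par_r, T.dep_r]
  · have := T.dep_par x h; omega

lemma par_ne {x : α} (h : x ≠ T.r) : T.par x ≠ x := by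
  intro e
  have := T.dep_par x h
  rw [e] at this; omega

lemma dep_iter (n : ℕ) (x : α) : T.dep (T.par^[n] x) = T.dep x - n := by
  induction n with
  | zero => simp
  | succ n ih => rw [Function.iterate_succ_apply', dep_par', ih]; omega

lemma ind {P : α → Prop} (h0 : P T.r) (hs : ∀ x, x ≠ T.r → P (T.par x) → P x) (x : α) : P x := by
  have : ∀ n x, T.dep x = n → P x := by
    intro n
    induction n with
    | zero => intro x hx; rw [eq_r hx]; exact h0
    | succ n ih =>
      intro x hx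
      have hne : x ≠ T.r := by
        intro e; rw [e, T.dep_r] at hx; omega
      exact hs x hne (ih _ (by have := T.dep_par x hne; omega))
  exact this _ x rfl

lemma anc_refl (x : α) : T.anc x x := ⟨0, rfl⟩
lemma anc_par (x : α) : T.anc (T.par x) x := ⟨1, rfl⟩

lemma anc.trans {x y z : α} (h1 : T.anc x y) (h2 : T.anc y z) : T.anc x z := by
  obtain ⟨n, rfl⟩ := h1
  obtain ⟨m, rfl⟩ := h2
  exact ⟨n + m, Function.iterate_add_apply _ _ _ _⟩

lemma anc_total {x y z : α} (h1 : T.anc x z) (h2 : T.anc y z) : T.anc x y ∨ T.anc y x := by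
  obtain ⟨n, rfl⟩ := h1
  obtain ⟨m, rfl⟩ := h2
  rcases le_total n m with h | h
  · right
    obtain ⟨k, rfl⟩ := Nat.exists_eq_add_of_le h
    exact ⟨k, by rw [add_comm, Function.iterate_add_apply]⟩
  · left
    obtain ⟨k, rfl⟩ := Nat.exists_eq_add_of_le h
    exact ⟨k, by rw [add_comm, Function.iterate_add_apply]⟩

lemma anc.dep_le {x y : α} (h : T.anc x y) : T.dep x ≤ T.dep y := by
  obtain ⟨n, rfl⟩ := h
  rw [dep_iter]; omega

lemma anc.eq_of_dep {x y : α} (h : T.anc x y) (hd : T.dep y ≤ T.dep x) : x = y := by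
  obtain ⟨n, rfl⟩ := h
  rw [dep_iter] at hd
  rcases Nat.eq_zero_or_pos n with rfl | hn
  · rfl
  · have : y = T.r := eq_r (by omega)
    subst this
    exact Function.iterate_fixed T.par_r n

lemma anc.antisymm {x y : α} (h : T.anc x y) (h' : T.anc y x) : x = y :=
  h.eq_of_dep h'.dep_le

lemma anc.cases {x y : α} (h : T.anc x y) : x = y ∨ (y ≠ T.r ∧ T.anc x (T.par y)) := by
  by_cases e : x = y
  · exact Or.inl e
  · right
    obtain ⟨n, rfl⟩ := h
    refine ⟨?_, ?_⟩
    · rintro rfl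
      exact e (Function.iterate_fixed T.par_r n)
    · cases n with
      | zero => exact absurd rfl e
      | succ n => exact ⟨n, (Function.iterate_succ_apply _ _ _).symm⟩

lemma anc_root (x : α) : T.anc T.r x :=
  ind (P := fun x => T.anc T.r x) (anc_refl _) (fun x _ h => h.trans (anc_par x)) x

/-- walking up from `c` to `b` -/
lemma up_ind {b : α} {P : α → Prop} (h0 : P b) (c : α)
    (hs : ∀ x, T.anc b (T.par x) → x ≠ T.r → T.anc x c → P (T.par x) → P x)
    (hbc : T.anc b c) : P c := by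
  have : ∀ x, T.anc b x → T.anc x c → P x := by
    intro x
    refine ind (T := T) (P := fun x => T.anc b x → T.anc x c → P x) ?_ ?_ x
    · intro h _
      rw [← h.antisymm (anc_root b)]; exact h0
    · intro x hx ih h1 h2
      rcases h1.cases with e | ⟨-, e⟩
      · rw [← e]; exact h0
      · exact hs x e hx h2 (ih e ((anc_par x).trans h2))
  exact this c hbc (anc_refl c)

/-! sums along root paths -/

def sumN (T : RT α) (w : α → α → ZMod 2) : ℕ → α → ZMod 2
  | 0, _ => 0
  | n + 1, x => sumN T w n (T.par x) + w (T.par x) x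

def S (T : RT α) (w : α → α → ZMod 2) (x : α) : ZMod 2 := sumN T w (T.dep x) x

lemma S_r (w : α → α → ZMod 2) : T.S w T.r = 0 := by
  unfold S; rw [T.dep_r]; rfl

lemma S_par (w : α → α → ZMod 2) {x : α} (h : x ≠ T.r) :
    T.S w x = T.S w (T.par x) + w (T.par x) x := by
  unfold S
  rw [← T.dep_par x h]; rfl

lemma S_congr {w w' : α → α → ZMod 2} (c : α)
    (h : ∀ x, x ≠ T.r → T.anc x c → w (T.par x) x = w' (T.par x) x) : T.S w c = T.S w' c := by
  refine up_ind (T := T) (b := T.r) (P := fun x => T.S w x = T.S w' x) (by simp only [S_r]) c ?_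
    (anc_root c)
  intro x _ hx hc ih
  rw [S_par w hx, S_par w' hx, ih, h x hx hc]

lemma lad_aux : ∀ a b c d e f g h : ZMod 2, a + b + c = d → e + f + c = 0 → g + h + f = 0 →
    (a + g) + (b + e) + h = d := by decide

/-- ladder between two parallel copies of a root path -/
lemma ladder {V : Type} (ω : V → V → ZMod 2) (hs : ∀ u v, ω u v = ω v u) (g g' : α → V) (c : α)
    (h1 : ∀ x, x ≠ T.r → T.anc x c →
      ω (g' (T.par x)) (g' x) + ω (g' x) (g (T.par x)) + ω (g (T.par x)) (g' (T.par x)) = 0)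
    (h2 : ∀ x, x ≠ T.r → T.anc x c →
      ω (g (T.par x)) (g x) + ω (g x) (g' x) + ω (g' x) (g (T.par x)) = 0) :
    T.S (fun a b => ω (g a) (g b)) c + T.S (fun a b => ω (g' a) (g' b)) c + ω (g c) (g' c)
      = ω (g T.r) (g' T.r) := by
  refine up_ind (T := T) (b := T.r) (P := fun c => T.S (fun a b => ω (g a) (g b)) c +
    T.S (fun a b => ω (g' a) (g' b)) c + ω (g c) (g' c) = ω (g T.r) (g' T.r))
    (by simp only [S_r, zero_add]) c ?_ (anc_root c)
  intro x _ hx hc ih
  rw [S_par _ hx, S_par (fun a b => ω (g' a) (g' b)) hx]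
  exact lad_aux _ _ _ _ _ _ _ _ ih (h1 x hx hc) (h2 x hx hc)

lemma S_exact (w : α → α → ZMod 2) (χ : α → ZMod 2) (c : α)
    (h : ∀ x, x ≠ T.r → T.anc x c → w (T.par x) x = χ (T.par x) + χ x) :
    T.S w c = χ T.r + χ c := by
  refine up_ind (T := T) (b := T.r) (P := fun x => T.S w x = χ T.r + χ x) ?_ c ?_ (anc_root c)
  · simp only [S_r]; exact (CharTwo.add_self_eq_zero _).symm
  · intro x _ hx hc ih
    rw [S_par w hx, ih, h x hx hc]
    have := CharTwo.add_self_eq_zero (χ (T.par x))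
    linear_combination this

/-! branching -/

def Bin (T : RT α) : ℕ → α → Prop
  | 0, b => ∃ c, c ≠ T.r ∧ T.par c = b
  | h + 1, b => ∃ c1 c2, T.anc b c1 ∧ T.anc b c2 ∧ ¬ T.anc c1 c2 ∧ ¬ T.anc c2 c1 ∧
      Bin T h c1 ∧ Bin T h c2

lemma fam (h d : ℕ) : ∀ b, T.Bin (h + d) b → ∃ S : Finset α, 2 ^ d ≤ S.card ∧
    (∀ c ∈ S, T.anc b c ∧ T.Bin h c) ∧ ∀ c ∈ S, ∀ c' ∈ S, c ≠ c' → ¬ T.anc c c' := by
  induction d with
  | zero =>
    intro b hb
    exact ⟨{b}, by simp, by simpa using ⟨anc_refl b, hb⟩, by simp⟩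
  | succ d ih =>
    intro b hb
    obtain ⟨c1, c2, a1, a2, n1, n2, b1, b2⟩ := hb
    obtain ⟨S1, k1, l1, m1⟩ := ih c1 b1
    obtain ⟨S2, k2, l2, m2⟩ := ih c2 b2
    have cross : ∀ z, T.anc c1 z → T.anc c2 z → False := fun z z1 z2 =>
      (anc_total z1 z2).elim n1 n2
    have hd : Disjoint S1 S2 := by
      rw [Finset.disjoint_left]
      intro z z1 z2
      exact cross z (l1 z z1).1 (l2 z z2).1
    refine ⟨S1 ∪ S2, ?_, ?_, ?_⟩
    · rw [Finset.card_union_of_disjoint hd, pow_succ]; omega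
    · intro c hc
      rcases Finset.mem_union.1 hc with hc | hc
      · exact ⟨a1.trans (l1 c hc).1, (l1 c hc).2⟩
      · exact ⟨a2.trans (l2 c hc).1, (l2 c hc).2⟩
    · intro c hc c' hc' hne ha
      rcases Finset.mem_union.1 hc with hc | hc <;> rcases Finset.mem_union.1 hc' with hc' | hc'
      · exact m1 c hc c' hc' hne ha
      · exact cross c' ((l1 c hc).1.trans ha) (l2 c' hc').1
      · exact cross c' (l1 c' hc').1 ((l2 c hc).1.trans ha)
      · exact m2 c hc c' hc' hne ha

/-! growth -/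

def Near (T : RT α) : ℕ → α → α → Prop
  | 0, x, y => x = y
  | n + 1, x, y => ∃ z, T.Close x z ∧ Near T n z y

lemma near_anc (n : ℕ) : ∀ x y, T.Near n x y →
    T.anc (T.par^[n] x) y ∧ T.dep y ≤ T.dep x + n := by
  induction n with
  | zero => intro x y h; cases h; exact ⟨anc_refl _, le_rfl⟩
  | succ n ih =>
    rintro x y ⟨z, hz, h⟩
    obtain ⟨h1, h2⟩ := ih z y h
    rcases hz with rfl | rfl | rfl
    · exact ⟨(by rw [Function.iterate_succ_apply']; exact (anc_par _).trans h1), by omega⟩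
    · refine ⟨by rw [Function.iterate_succ_apply]; exact h1, ?_⟩
      have := dep_par' (T := T) x; omega
    · refine ⟨?_, ?_⟩
      · refine anc.trans ⟨2, ?_⟩ h1
        rw [← Function.iterate_add_apply, ← Function.iterate_succ_apply, add_comm]
      · have := dep_par' (T := T) z; omega

lemma near_mono {n : ℕ} : ∀ {x y : α}, T.Near n x y → T.Near (n + 1) x y :=
  fun {x _} h => ⟨x, close_refl x, h⟩

def DG (T : RT α) (c : ℕ) : Prop :=
  ∀ z σ, {y | T.anc z y ∧ T.dep y ≤ T.dep z + σ}.ncard ≤ c * σ + 1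

lemma ball_le [Finite α] (h : T.DG 5) (x : α) (n : ℕ) (hn : 1 ≤ n) :
    {y | T.Near n x y}.ncard ≤ 11 * n := by
  have := h (T.par^[n] x) (2 * n)
  have h2 : {y | T.Near n x y} ⊆
      {y | T.anc (T.par^[n] x) y ∧ T.dep y ≤ T.dep (T.par^[n] x) + 2 * n} := by
    intro y hy
    obtain ⟨h1, h2⟩ := near_anc n x y hy
    refine ⟨h1, ?_⟩
    rw [dep_iter]; omega
  have := Set.ncard_le_ncard h2
  omega

end RT

end Pool.Agent.H.MP_9dd636_co
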