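import Pool.Agent.H.MP_9dd636_co.Gad
import Pool.Agent.H.MP_9dd636_co.Tree

set_option autoImplicit false

namespace Pool.Agent.H.MP_9dd636_co

open Classical RT

variable {α β : Type} (A : RT α) (B : RT β)

def prodG : SimpleGraph (α × β) where
  Adj u v := u ≠ v ∧ A.Close u.1 v.1 ∧ B.Close u.2 v.2
  symm := ⟨fun _ _ h => ⟨h.1.symm, h.2.1.symm, h.2.2.symm⟩⟩
  loopless := ⟨fun _ h => h.1 rfl⟩

def Seg (c l : β) : Set β := {y | B.anc c y ∧ B.anc y l}

def Step (σ : α × β → Prop) (S : Set β) (u v : α × β) : Prop :=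
  (prodG A B).Adj u v ∧ σ v ∧ v.2 ∈ S

def Reach (σ : α × β → Prop) (c l : β) (u : α × β) : Prop :=
  ∃ x, σ (x, l) ∧ Relation.ReflTransGen (Step A B σ (Seg B c l)) (x, l) u

def Cross (σ : α × β → Prop) (c l : β) : Prop := ∃ x0, Reach A B σ c l (x0, c)

variable {A B}

lemma three {γ : Type} (S : Finset γ) (h : 2 < S.card) :
    ∃ c : Fin 3 → γ, Function.Injective c ∧ ∀ i, c i ∈ S := by
  obtain ⟨a, b, c, ha, hb, hc, hab, hac, hbc⟩ := Finset.two_lt_card_iff.1 h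
  refine ⟨![a, b, c], ?_, ?_⟩
  · intro i j
    fin_cases i <;> fin_cases j <;> simp [hab, hac, hbc, hab.symm, hac.symm, hbc.symm]
  · intro i
    fin_cases i <;> simp [ha, hb, hc]

lemma adj_h {x : α} (hx : x ≠ A.r) {y y' : β} (h : B.Close y y') :
    (prodG A B).Adj (A.par x, y) (x, y') :=
  ⟨fun e => par_ne hx (congrArg Prod.fst e), (close_par x).symm, h⟩

lemma adj_v {y : β} (hy : y ≠ B.r) {x x' : α} (h : A.Close x x') :
    (prodG A B).Adj (x, B.par y) (x', y) :=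
  ⟨fun e => par_ne hy (congrArg Prod.snd e), h, (close_par y).symm⟩

lemma Reach.prop {σ : α × β → Prop} {c l : β} (hcl : B.anc c l) {u : α × β}
    (h : Reach A B σ c l u) : σ u ∧ u.2 ∈ Seg B c l := by
  obtain ⟨x, h1, h2⟩ := h
  induction h2 with
  | refl => exact ⟨h1, hcl, anc_refl _⟩
  | tail _ h _ => exact h.2

lemma Reach.nbr {σ : α × β → Prop} {c l l' : β} (hcl : B.anc c l) (hno : ¬ Cross A B σ c l)
    (hl' : ¬ B.anc c l') {w u : α × β} (h : Reach A B σ c l w) (ha : (prodG A B).Adj w u)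
    (hu : B.anc u.2 l ∨ B.anc u.2 l') : u.2 ∈ Seg B c l ∧ (σ u → Reach A B σ c l u) := by
  have hw := (h.prop hcl).2
  have hne : c ≠ w.2 := by
    intro e
    exact hno ⟨w.1, by rw [e]; rw [e] at h; exact h⟩
  have key : u.2 ∈ Seg B c l := by
    rcases ha.2.2 with e | e | e
    · rw [← e]; exact hw
    · rw [← e]
      exact ⟨(hw.1.cases.resolve_left hne).2, (anc_par _).trans hw.2⟩
    · have h1 : B.anc c u.2 := hw.1.trans (e ▸ anc_par _)
      exact ⟨h1, hu.resolve_right (fun h => hl' (h1.trans h))⟩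
  refine ⟨key, fun hs => ?_⟩
  obtain ⟨x, h1, h2⟩ := h
  exact ⟨x, h1, h2.tail ⟨ha, hs, key⟩⟩

section tl
variable (A B) (f : α × β → ℕ) (t : ℕ) (c1 c2 l1 l2 : β)

def R1 (u : α × β) : Prop := Reach A B (fun u => ¬ f u < t) c1 l1 u
def R2 (u : α × β) : Prop := Reach A B (fun u => f u < t) c2 l2 u

noncomputable def om (p : ℕ) (u v : α × β) : ZMod 2 :=
  if (R1 A B f t c1 l1 u ∨ R2 A B f t c2 l2 u) ∨ (R1 A B f t c1 l1 v ∨ R2 A B f t c2 l2 v) then 0
  else W t p (f u) (f v)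

noncomputable def chi (u : α × β) : ZMod 2 :=
  if R1 A B f t c1 l1 u then 1 else if R2 A B f t c2 l2 u then 0 else if f u < t then 1 else 0

structure Hyp : Prop where
  hf : Function.Injective f
  a1 : B.anc c1 l1
  a2 : B.anc c2 l2
  n1 : ¬ B.anc c1 l2
  n2 : ¬ B.anc c2 l1
  k1 : ¬ Cross A B (fun u => ¬ f u < t) c1 l1
  k2 : ¬ Cross A B (fun u => f u < t) c2 l2

noncomputable def av (x : α) (p : ℕ) : ZMod 2 :=
  B.S (fun a b => om A B f t c1 c2 l1 l2 p (x, a) (x, b)) l1 +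
    B.S (fun a b => om A B f t c1 c2 l1 l2 p (x, a) (x, b)) l2

variable {A B f t c1 c2 l1 l2}

lemma om_symm (p : ℕ) (u v : α × β) :
    om A B f t c1 c2 l1 l2 p u v = om A B f t c1 c2 l1 l2 p v u := by
  unfold om
  rw [W_symm]
  simp only [or_comm]

lemma Hyp.edge0 (H : Hyp A B f t c1 c2 l1 l2) (p : ℕ) {u v w : α × β}
    (hw : R1 A B f t c1 l1 w ∨ R2 A B f t c2 l2 w) (a1 : (prodG A B).Adj w u)
    (a2 : (prodG A B).Adj w v) (hu : B.anc u.2 l1 ∨ B.anc u.2 l2)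
    (hv : B.anc v.2 l1 ∨ B.anc v.2 l2) : om A B f t c1 c2 l1 l2 p u v = 0 := by
  unfold om
  split_ifs with h
  · rfl
  · push Not at h
    apply W_same
    rcases hw with hw | hw
    · have b1 := (Reach.nbr H.a1 H.k1 H.n1 hw a1 hu).2
      have b2 := (Reach.nbr H.a1 H.k1 H.n1 hw a2 hv).2
      have e1 : f u < t := by by_contra e; exact h.1.1 (b1 e)
      have e2 : f v < t := by by_contra e; exact h.2.1 (b2 e)
      simp [e1, e2]
    · have b1 := (Reach.nbr H.a2 H.k2 H.n2 hw a1 hu.symm).2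
      have b2 := (Reach.nbr H.a2 H.k2 H.n2 hw a2 hv.symm).2
      have e1 : ¬ f u < t := fun e => h.1.2 (b1 e)
      have e2 : ¬ f v < t := fun e => h.2.2 (b2 e)
      simp [e1, e2]

lemma om_l {p : ℕ} {u : α × β} (v : α × β) (hw : R1 A B f t c1 l1 u ∨ R2 A B f t c2 l2 u) :
    om A B f t c1 c2 l1 l2 p u v = 0 := if_pos (Or.inl hw)

lemma om_r {p : ℕ} (u : α × β) {v : α × β} (hw : R1 A B f t c1 l1 v ∨ R2 A B f t c2 l2 v) :
    om A B f t c1 c2 l1 l2 p u v = 0 := if_pos (Or.inr hw)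

lemma om_n {p : ℕ} {u v : α × β} (hu : ¬ (R1 A B f t c1 l1 u ∨ R2 A B f t c2 l2 u))
    (hv : ¬ (R1 A B f t c1 l1 v ∨ R2 A B f t c2 l2 v)) :
    om A B f t c1 c2 l1 l2 p u v = W t p (f u) (f v) := if_neg (by tauto)

lemma Hyp.closed (H : Hyp A B f t c1 c2 l1 l2) {p : ℕ} {Y : Set (α × β)} {u v w : α × β}
    (hY : ∀ u ∈ Y, B.anc u.2 l1 ∨ B.anc u.2 l2) (hu : u ∈ Y) (hv : v ∈ Y) (hw : w ∈ Y)
    (a1 : (prodG A B).Adj u v) (a2 : (prodG A B).Adj v w) (a3 : (prodG A B).Adj w u)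
    (hn : ¬ Cov (Od (prodG A B) f t) Y p) :
    om A B f t c1 c2 l1 l2 p u v + om A B f t c1 c2 l1 l2 p v w + om A B f t c1 c2 l1 l2 p w u
      = 0 := by
  by_cases zu : R1 A B f t c1 l1 u ∨ R2 A B f t c2 l2 u
  · rw [om_l v zu, om_r w zu, H.edge0 p zu a1 a3.symm (hY v hv) (hY w hw)]; rfl
  by_cases zv : R1 A B f t c1 l1 v ∨ R2 A B f t c2 l2 v
  · rw [om_l w zv, om_r u zv, H.edge0 p zv a2 a1.symm (hY w hw) (hY u hu)]; rfl
  by_cases zw : R1 A B f t c1 l1 w ∨ R2 A B f t c2 l2 w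
  · rw [om_l u zw, om_r v zw, H.edge0 p zw a3 a2.symm (hY u hu) (hY v hv)]; rfl
  rw [om_n zu zv, om_n zv zw, om_n zw zu]
  exact cov_of_tri H.hf hu hv hw a1 a2 a3 hn

lemma Hyp.jump (H : Hyp A B f t c1 c2 l1 l2) {p : ℕ} {Y : Set (α × β)} {u v w : α × β}
    (hY : ∀ u ∈ Y, B.anc u.2 l1 ∨ B.anc u.2 l2) (hu : u ∈ Y) (hv : v ∈ Y) (hw : w ∈ Y)
    (a1 : (prodG A B).Adj u v) (a2 : (prodG A B).Adj v w) (a3 : (prodG A B).Adj w u)
    (hn : ¬ Cov (Od (prodG A B) f t) Y p) (hn' : ¬ Cov (Od (prodG A B) f t) Y (p + 1)) :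
    om A B f t c1 c2 l1 l2 p u v = om A B f t c1 c2 l1 l2 (p + 1) u v := by
  by_cases zu : R1 A B f t c1 l1 u ∨ R2 A B f t c2 l2 u
  · rw [om_l v zu, om_l v zu]
  by_cases zv : R1 A B f t c1 l1 v ∨ R2 A B f t c2 l2 v
  · rw [om_r u zv, om_r u zv]
  by_cases zw : R1 A B f t c1 l1 w ∨ R2 A B f t c2 l2 w
  · rw [H.edge0 p zw a3 a2.symm (hY u hu) (hY v hv),
      H.edge0 (p + 1) zw a3 a2.symm (hY u hu) (hY v hv)]
  rw [om_n zu zv, om_n zu zv]
  exact W_jump t p _ _ (f w) (fun e => a1.ne (H.hf e)) (fun e => a2.ne (H.hf e))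
    (fun e => a3.ne (H.hf e).symm) (cov_of_tri H.hf hu hv hw a1 a2 a3 hn)
    (cov_of_tri H.hf hu hv hw a1 a2 a3 hn')

lemma om_row1 (p : ℕ) (x x' : α) : om A B f t c1 c2 l1 l2 p (x, l1) (x', l1) = 0 := by
  unfold om
  split_ifs with h
  · rfl
  · push Not at h
    apply W_same
    have e1 : f (x, l1) < t := by by_contra e; exact h.1.1 ⟨x, e, Relation.ReflTransGen.refl⟩
    have e2 : f (x', l1) < t := by by_contra e; exact h.2.1 ⟨x', e, Relation.ReflTransGen.refl⟩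
    simp [e1, e2]

lemma om_row2 (p : ℕ) (x x' : α) : om A B f t c1 c2 l1 l2 p (x, l2) (x', l2) = 0 := by
  unfold om
  split_ifs with h
  · rfl
  · push Not at h
    apply W_same
    have e1 : ¬ f (x, l2) < t := fun e => h.1.2 ⟨x, e, Relation.ReflTransGen.refl⟩
    have e2 : ¬ f (x', l2) < t := fun e => h.2.2 ⟨x', e, Relation.ReflTransGen.refl⟩
    simp [e1, e2]

lemma cs_aux : ∀ a b c d e : ZMod 2, a + b + 0 = e → c + d + 0 = e → a + c = b + d := by decide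

lemma Hyp.colstep (H : Hyp A B f t c1 c2 l1 l2) {p : ℕ} {Y : Set (α × β)} {x : α} (hx : x ≠ A.r)
    (hY : ∀ u ∈ Y, B.anc u.2 l1 ∨ B.anc u.2 l2)
    (h1 : ∀ y, B.anc y l1 ∨ B.anc y l2 → (x, y) ∈ Y ∧ (A.par x, y) ∈ Y)
    (hn : ¬ Cov (Od (prodG A B) f t) Y p) :
    av A B f t c1 c2 l1 l2 x p = av A B f t c1 c2 l1 l2 (A.par x) p := by
  have lad : ∀ l, (∀ y, B.anc y l → B.anc y l1 ∨ B.anc y l2) →
      B.S (fun a b => om A B f t c1 c2 l1 l2 p (x, a) (x, b)) l +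
      B.S (fun a b => om A B f t c1 c2 l1 l2 p (A.par x, a) (A.par x, b)) l +
      om A B f t c1 c2 l1 l2 p (x, l) (A.par x, l) =
      om A B f t c1 c2 l1 l2 p (x, B.r) (A.par x, B.r) := by
    intro l hl
    refine ladder (T := B) (om A B f t c1 c2 l1 l2 p) (om_symm p) (fun y => (x, y))
      (fun y => (A.par x, y)) l ?_ ?_
    · intro y hy hc
      have q1 := h1 y (hl y hc)
      have q2 := h1 (B.par y) (hl _ ((anc_par y).trans hc))
      exact H.closed hY q2.2 q1.2 q2.1 (adj_v hy (close_refl _)) (adj_h hx (close_par y))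
        (adj_h hx (close_refl _)).symm hn
    · intro y hy hc
      have q1 := h1 y (hl y hc)
      have q2 := h1 (B.par y) (hl _ ((anc_par y).trans hc))
      exact H.closed hY q2.1 q1.1 q1.2 (adj_v hy (close_refl _)) (adj_h hx (close_refl _)).symm
        (adj_h hx (close_par y)) hn
  have e1 := lad l1 (fun y h => Or.inl h)
  have e2 := lad l2 (fun y h => Or.inr h)
  rw [om_row1] at e1
  rw [om_row2] at e2
  exact cs_aux _ _ _ _ _ e1 e2

lemma Hyp.colpath (H : Hyp A B f t c1 c2 l1 l2) {p : ℕ} {Y : Set (α × β)} {b c : α}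
    (hbc : A.anc b c) (hY : ∀ u ∈ Y, B.anc u.2 l1 ∨ B.anc u.2 l2)
    (h1 : ∀ x y, A.anc b x → A.anc x c → B.anc y l1 ∨ B.anc y l2 → (x, y) ∈ Y)
    (hn : ¬ Cov (Od (prodG A B) f t) Y p) :
    av A B f t c1 c2 l1 l2 c p = av A B f t c1 c2 l1 l2 b p := by
  refine up_ind (T := A) (b := b)
    (P := fun c => av A B f t c1 c2 l1 l2 c p = av A B f t c1 c2 l1 l2 b p) rfl c ?_ hbc
  intro x k1 k2 k3 ih
  rw [← ih]
  exact H.colstep k2 hY (fun y hy => ⟨h1 x y (k1.trans (anc_par x)) k3 hy,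
    h1 _ y k1 ((anc_par x).trans k3) hy⟩) hn

lemma Hyp.gad (H : Hyp A B f t c1 c2 l1 l2) (m : ℕ) : ∀ b, A.Bin (2 * m) b →
    HH (Od (prodG A B) f t) m {u | A.anc b u.1 ∧ (B.anc u.2 l1 ∨ B.anc u.2 l2)}
      (av A B f t c1 c2 l1 l2 b) := by
  induction m with
  | zero =>
    rintro b ⟨c, hc, rfl⟩
    apply HH_zero
    intro p hp hp'
    have key : ∀ l, (∀ y, B.anc y l → B.anc y l1 ∨ B.anc y l2) →
        B.S (fun a b => om A B f t c1 c2 l1 l2 p (A.par c, a) (A.par c, b)) l =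
        B.S (fun a b => om A B f t c1 c2 l1 l2 (p + 1) (A.par c, a) (A.par c, b)) l := by
      intro l hl
      apply S_congr
      intro y hy hyl
      exact H.jump (w := (c, y))
        (Y := {u | A.anc (A.par c) u.1 ∧ (B.anc u.2 l1 ∨ B.anc u.2 l2)}) (fun u hu => hu.2)
        ⟨anc_refl _, hl _ ((anc_par y).trans hyl)⟩ ⟨anc_refl _, hl _ hyl⟩ ⟨anc_par _, hl _ hyl⟩
        (adj_v hy (close_refl _)) (adj_h hc (close_refl _)) (adj_h hc (close_par y).symm).symm hp hp'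
    unfold av
    rw [key l1 (fun y h => Or.inl h), key l2 (fun y h => Or.inr h)]
  | succ m ih =>
    intro b hb
    obtain ⟨S, k1, k2, k3⟩ := fam (2 * m) 2 b hb
    obtain ⟨c, hc, hcS⟩ := three S (by omega)
    have inc : ∀ i j, i ≠ j → ¬ A.anc (c i) (c j) :=
      fun i j hij => k3 _ (hcS i) _ (hcS j) (fun e => hij (hc e))
    have e1 : ∀ l i s, i ≠ l → ¬ Cov (Od (prodG A B) f t)
        ({u | A.anc b u.1 ∧ (B.anc u.2 l1 ∨ B.anc u.2 l2)} \
          {u | A.anc (c l) u.1 ∧ (B.anc u.2 l1 ∨ B.anc u.2 l2)}) s →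
        av A B f t c1 c2 l1 l2 (c i) s = av A B f t c1 c2 l1 l2 b s := by
      intro l i s hil hn
      refine H.colpath (k2 _ (hcS i)).1 (fun u hu => hu.1.2) ?_ hn
      intro x y q1 q2 q3
      exact ⟨⟨q1, q3⟩, fun h => inc l i hil.symm (h.1.trans q2)⟩
    refine HH_step (fun i => {u | A.anc (c i) u.1 ∧ (B.anc u.2 l1 ∨ B.anc u.2 l2)})
      (fun i => av A B f t c1 c2 l1 l2 (c i)) ?_ ?_ (fun i => ih _ (k2 _ (hcS i)).2) ?_ ?_
    · intro i u hu
      exact ⟨(k2 _ (hcS i)).1.trans hu.1, hu.2⟩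
    · intro i j hij
      rw [Set.disjoint_left]
      intro u h1 h2
      exact (anc_total h1.1 h2.1).elim (inc i j hij) (inc j i hij.symm)
    · intro l i j s hi hj hn
      exact (e1 l i s hi hn).trans (e1 l j s hj hn).symm
    · intro i s hn
      exact (H.colpath (Y := {u | A.anc b u.1 ∧ (B.anc u.2 l1 ∨ B.anc u.2 l2)})
        (k2 _ (hcS i)).1 (fun u hu => hu.2) (fun x y q1 _ q3 => ⟨q1, q3⟩) hn).symm

lemma Hyp.chi_half (H : Hyp A B f t c1 c2 l1 l2) {u v : α × β}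
    (hu : R1 A B f t c1 l1 u ∨ R2 A B f t c2 l2 u) (ha : (prodG A B).Adj u v)
    (hv : B.anc v.2 l1 ∨ B.anc v.2 l2) : chi A B f t c1 c2 l1 l2 u = chi A B f t c1 c2 l1 l2 v := by
  unfold chi
  by_cases h1 : R1 A B f t c1 l1 u
  · obtain ⟨b1, b2⟩ := Reach.nbr H.a1 H.k1 H.n1 h1 ha hv
    have n2 : ¬ R2 A B f t c2 l2 v := fun h => H.n1 (b1.1.trans (Reach.prop H.a2 h).2.2)
    by_cases h2 : R1 A B f t c1 l1 v
    · simp only [h1, h2, if_true]
    · have : f v < t := by by_contra e; exact h2 (b2 e)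
      simp only [h1, h2, n2, this, if_true, if_false]
  · have h1' := hu.resolve_left h1
    obtain ⟨b1, b2⟩ := Reach.nbr H.a2 H.k2 H.n2 h1' ha hv.symm
    have n2 : ¬ R1 A B f t c1 l1 v := fun h => H.n2 (b1.1.trans (Reach.prop H.a1 h).2.2)
    by_cases h2 : R2 A B f t c2 l2 v
    · simp only [h1, h1', h2, n2, if_true, if_false]
    · have : ¬ f v < t := fun e => h2 (b2 e)
      simp only [h1, h1', h2, n2, this, if_true, if_false]

lemma Hyp.om_zero (H : Hyp A B f t c1 c2 l1 l2) {u v : α × β} (ha : (prodG A B).Adj u v)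
    (hu : B.anc u.2 l1 ∨ B.anc u.2 l2) (hv : B.anc v.2 l1 ∨ B.anc v.2 l2) :
    om A B f t c1 c2 l1 l2 0 u v = chi A B f t c1 c2 l1 l2 u + chi A B f t c1 c2 l1 l2 v := by
  by_cases zu : R1 A B f t c1 l1 u ∨ R2 A B f t c2 l2 u
  · rw [om_l v zu, H.chi_half zu ha hv, CharTwo.add_self_eq_zero]
  by_cases zv : R1 A B f t c1 l1 v ∨ R2 A B f t c2 l2 v
  · rw [om_r u zv, H.chi_half zv ha.symm hu, CharTwo.add_self_eq_zero]
  rw [om_n zu zv, W_zero]
  push Not at zu zv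
  unfold chi
  simp only [zu.1, zu.2, zv.1, zv.2, if_false]

lemma Hyp.av_zero (H : Hyp A B f t c1 c2 l1 l2) (x : α) : av A B f t c1 c2 l1 l2 x 0 = 1 := by
  have key : ∀ l, (∀ y, B.anc y l → B.anc y l1 ∨ B.anc y l2) →
      B.S (fun a b => om A B f t c1 c2 l1 l2 0 (x, a) (x, b)) l =
        chi A B f t c1 c2 l1 l2 (x, B.r) + chi A B f t c1 c2 l1 l2 (x, l) := by
    intro l hl
    refine S_exact (T := B) _ (fun y => chi A B f t c1 c2 l1 l2 (x, y)) l ?_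
    intro y hy hyl
    exact H.om_zero (adj_v hy (close_refl _)) (hl _ ((anc_par y).trans hyl)) (hl _ hyl)
  have e1 : chi A B f t c1 c2 l1 l2 (x, l1) = 1 := by
    unfold chi
    by_cases h : R1 A B f t c1 l1 (x, l1)
    · simp only [h, if_true]
    · have n2 : ¬ R2 A B f t c2 l2 (x, l1) := fun h => H.n2 (Reach.prop H.a2 h).2.1
      have : f (x, l1) < t := by by_contra e; exact h ⟨x, e, Relation.ReflTransGen.refl⟩
      simp only [h, n2, this, if_true, if_false]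
  have e2 : chi A B f t c1 c2 l1 l2 (x, l2) = 0 := by
    unfold chi
    have n2 : ¬ R1 A B f t c1 l1 (x, l2) := fun h => H.n1 (Reach.prop H.a1 h).2.1
    by_cases h : R2 A B f t c2 l2 (x, l2)
    · simp only [h, n2, if_true, if_false]
    · have : ¬ f (x, l2) < t := fun e => h ⟨x, e, Relation.ReflTransGen.refl⟩
      simp only [h, n2, this, if_false]
  unfold av
  rw [key l1 (fun y h => Or.inl h), key l2 (fun y h => Or.inr h), e1, e2]
  have := CharTwo.add_self_eq_zero (chi A B f t c1 c2 l1 l2 (x, B.r))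
  linear_combination this

lemma av_big (N : ℕ) (hN : ∀ v, f v < N) (x : α) : av A B f t c1 c2 l1 l2 x N = 0 := by
  have key : ∀ l, B.S (fun a b => om A B f t c1 c2 l1 l2 N (x, a) (x, b)) l = 0 + 0 := by
    intro l
    refine S_exact (T := B) _ (fun _ => 0) l ?_
    intro y _ _
    unfold om
    split_ifs
    · simp
    · rw [W_big _ _ _ _ (hN _) (hN _)]; simp
  unfold av
  rw [key, key]; simp

theorem Hyp.heavy (H : Hyp A B f t c1 c2 l1 l2) (N : ℕ) (hN : ∀ v, f v < N) (m : ℕ)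
    (hb : A.Bin (2 * m) A.r) : ∃ Y p, Heavy (Od (prodG A B) f t) m Y p := by
  obtain ⟨s, -, -, h⟩ := H.gad m A.r hb 0 N (by have := hN (A.r, B.r); omega) (not_cov_zero _ _)
    (not_cov_big _ _ N hN) (by rw [H.av_zero, av_big N hN]; decide)
  exact ⟨_, s, h⟩

end tl

end Pool.Agent.H.MP_9dd636_co
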